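import Pool.Agent.Helper87.PG.Stmts
import Pool.Agent.Helper68.TC.HCUR2

/-! # MP_39dd1a_ag, pg_rows: row HCUR2 -/

set_option autoImplicit false

namespace Pool.Agent.Helper87.PG

open MvPolynomial Pool.Agent.Helper48.VMRT Pool.Agent.Helper87.VM Pool.Agent.Helper87.TC

/-- A power of a nontrivial element of a group of order `2 ^ m` is an involution. -/
theorem hcur2_invol {G : Type} [Group G] (m : ℕ) (hG : Nat.card G = 2 ^ m) (h : G)
    (h1 : h ≠ 1) : ∃ j : ℕ, h ^ j ≠ 1 ∧ h ^ j * h ^ j = 1 := by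
  have hd : orderOf h ∣ 2 ^ m := hG ▸ orderOf_dvd_natCard h
  obtain ⟨a, -, ha⟩ := (Nat.dvd_prime_pow Nat.prime_two).1 hd
  have ha0 : a ≠ 0 := by
    intro h0
    rw [h0, pow_zero] at ha
    exact h1 (orderOf_eq_one_iff.1 ha)
  obtain ⟨b, rfl⟩ := Nat.exists_eq_succ_of_ne_zero ha0
  refine ⟨2 ^ b, ?_, ?_⟩
  · intro h2
    have h3 := orderOf_dvd_of_pow_eq_one h2
    rw [ha] at h3
    have h4 := Nat.le_of_dvd (by positivity) h3
    have h5 : 2 ^ b < 2 ^ b.succ := Nat.pow_lt_pow_right (by norm_num) (Nat.lt_succ_self b)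
    omega
  · rw [← pow_add]
    have h2 : 2 ^ b + 2 ^ b = orderOf h := by
      rw [ha, Nat.succ_eq_add_one, pow_succ]
      ring
    rw [h2]
    exact pow_orderOf_eq_one h

/-- An involution does not preserve the plane. -/
theorem hcur2_inv' (D : VD) (m : ℕ) (hT : TD D m) (hHTR : TC.ST_HTR0) (τ : D.G) (hτ1 : τ ≠ 1)
    (hτ2 : τ * τ = 1)
    (p q : Option (Fin D.w) → ℂ) (hLP : LP D p q)
    (y : Option (Fin D.w) × D.ν → Polynomial ℂ) (η : D.ν → Polynomial ℂ)
    (hy : ∀ s t : ℂ, hevv D.a y s t = seg (s • p + t • q) (hevv (D.a - 1) η s t))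
    (hη : ∀ s t : ℂ, (s * p none + t * q none) • hevv (D.a - 1) η s t =
        ev D.F (s • p + t • q))
    (hFX : ∀ s t : ℂ, (s, t) ≠ (0, 0) → hevv D.a y s t ∉ FX D)
    (hU : ∀ x ∈ Submodule.span ℂ {p, q}, oext D.ρ τ x ∈ Submodule.span ℂ {p, q}) :
    False := by
  have h1 : ∃ x ∈ Submodule.span ℂ {p, q}, x none ≠ 0 := by
    rcases hLP.ne with h | h
    · exact ⟨p, Submodule.subset_span (by simp), h⟩
    · exact ⟨q, Submodule.subset_span (by simp), h⟩
  obtain ⟨x, hx, hx0⟩ := h1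
  have hττ : ∀ v, oext D.ρ τ (oext D.ρ τ v) = v := by
    intro v
    have h2 : oext D.ρ (τ * τ) v = oext D.ρ τ (oext D.ρ τ v) := by
      rw [map_mul, Module.End.mul_apply]
    rw [← h2, hτ2, map_one, Module.End.one_apply]
  set x0 : Option (Fin D.w) → ℂ := x + oext D.ρ τ x with hx0d
  have h2 : x0 ∈ Submodule.span ℂ {p, q} := Submodule.add_mem _ hx (hU x hx)
  have h3 : oext D.ρ τ x0 = x0 := by
    rw [hx0d, map_add, hττ, add_comm]
  have h4 : x0 none ≠ 0 := by
    rw [hx0d, Pi.add_apply, oext_none, ← two_mul]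
    exact mul_ne_zero two_ne_zero hx0
  obtain ⟨s, t, hst⟩ := Submodule.mem_span_pair.1 h2
  have hne : (s, t) ≠ (0, 0) := by
    intro h0
    rw [Prod.mk.injEq] at h0
    rw [h0.1, h0.2, zero_smul, zero_smul, add_zero] at hst
    exact h4 (by rw [← hst]; rfl)
  apply hFX s t hne
  have h6 : s * p none + t * q none = x0 none := by
    rw [← hst]
    rfl
  have h7 := hη s t
  rw [h6, hst] at h7
  have h8 : x0 none • hevv D.a y s t = D.gr x0 := by
    rw [hy, hst, ← seg_smul_right, h7]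
    rfl
  refine ⟨τ, hτ1, hτ2, Or.inl ?_⟩
  have h9 : x0 none • D.ρY τ (hevv D.a y s t) = x0 none • hevv D.a y s t := by
    rw [← map_smul, h8, ← (hHTR D hT.good τ).1, h3]
  exact smul_right_injective _ h4 h9

/-- Row HCUR2. -/
theorem st_HCUR2 (hMEM : ST_MEM2) (hHTR : TC.ST_HTR0) : ST_HCUR2 := by
  intro D m N E X DX hTR c hc
  obtain ⟨p, q, hLP, hcE, hcD⟩ := hc
  obtain ⟨y, η, hMy, hMη, hy, hyY, hη, hpt, hFX⟩ := hMEM D m N E X DX hTR p q hLP c hcE hcD
  have hT := hTR.td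
  have hR := hTR.res
  have hfinG : Finite D.G := Nat.finite_of_card_ne_zero (by rw [hT.card]; positivity)
  have hinv : ∃ τ : D.G, τ ≠ 1 ∧ τ * τ = 1 := by
    have : Fact (Nat.Prime 2) := ⟨Nat.prime_two⟩
    obtain ⟨x, hx⟩ := exists_prime_orderOf_dvd_card' (G := D.G) 2
      (by rw [hT.card]; exact dvd_pow_self 2 (by have := hT.pos; omega))
    refine ⟨x, ?_, ?_⟩
    · intro h0
      rw [h0, orderOf_one] at hx
      omega
    · have h2 := pow_orderOf_eq_one x
      rwa [hx, sq] at h2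
  have h0F : (0 : Option (Fin D.w) × D.ν → ℂ) ∈ FX D := by
    obtain ⟨τ, h1, h2⟩ := hinv
    exact ⟨τ, h1, h2, Or.inl (map_zero _)⟩
  have h0 : (0 : Fin (N + 1) → ℂ) ∈ DX := by
    have h1 := hR.dcone 0 _ (hR.on 0 h0F)
    rwa [zero_smul] at h1
  refine ⟨?_, ?_, ?_⟩
  · intro s t hst h1
    exact hcD s t hst (by rw [h1]; exact h0)
  · intro s t
    rw [hpt]
    exact hR.img _ (hyY s t)
  · set B : D.G → Set ℂ := fun h => {z | h ≠ 1 ∧ oext D.ρ h (p + z • q) ∈
      Submodule.span ℂ {p, q}} with hB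
    have hsub : ∀ h, (B h).Subsingleton := by
      intro h z1 hz1 z2 hz2
      by_contra hne
      have h1 := hcur2_plane (oext D.ρ h) p q z1 z2 hne hz1.2 hz2.2
      obtain ⟨j, hj1, hj2⟩ := hcur2_invol m hT.card h hz1.1
      have h2 := hcur2_iter _ _ h1 j
      rw [← map_pow] at h2
      exact hcur2_inv' D m hT hHTR (h ^ j) hj1 hj2 p q hLP y η hy hη hFX h2
    have hfin : (⋃ h, B h).Finite := Set.finite_iUnion (fun h => (hsub h).finite)
    refine hfin.subset ?_
    rintro z ⟨s, t, hst, htz, a, ha⟩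
    have h1z : ((1 : ℂ), z) ≠ (0, 0) := by simp
    have hsep := hR.sep (hevv D.a y 1 z) (hyY 1 z) (hFX 1 z h1z) (hevv D.a y s t) (hyY s t)
      (hFX s t hst) a (by rw [← hpt, ← hpt]; exact ha)
    obtain ⟨h, c', hi⟩ := hsep
    have e1 : (D.ρY h) (hevv D.a y 1 z) =
        seg (oext D.ρ h ((1 : ℂ) • p + z • q)) (D.ρν h (hevv (D.a - 1) η 1 z)) := by
      rw [hy, VD.ρY, tens_seg]
    rw [e1, ← seg_smul_right, hy] at hi
    have hne0 : seg (s • p + t • q) (hevv (D.a - 1) η s t) ≠ 0 := by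
      rw [← hy]
      exact hMy.ne s t hst
    obtain ⟨c'', hc'', hx, -⟩ := seg_eq_seg hi hne0
    rw [one_smul] at hx
    rw [Set.mem_iUnion]
    refine ⟨h, ?_, ?_⟩
    · intro hh1
      rw [hh1, map_one, Module.End.one_apply] at hx
      have h2 := LinearIndependent.pair_iff.1 hLP.ind (1 - c'' * s) (z - c'' * t) (by
        have h3 : (1 - c'' * s) • p + (z - c'' * t) • q =
            (p + z • q) - c'' • (s • p + t • q) := by
          rw [sub_smul, sub_smul, one_smul, smul_add, smul_smul, smul_smul]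
          abel
        rw [h3, hx, sub_self])
      apply htz
      linear_combination t * h2.1 - s * h2.2
    · rw [hx]
      refine Submodule.smul_mem _ _ ?_
      exact Submodule.mem_span_pair.2 ⟨s, t, rfl⟩

end Pool.Agent.Helper87.PG
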